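import Mathlib
import Pool.Agent.helper58.DC.Spec1

/-! # dq: OM, naturality of `omega` -/

set_option autoImplicit false

namespace Pool.Agent.helper55.DC

open Pool.Agent.helper58.DC

theorem OM : OM_stmt := by
  intro G _ _ α ψ g
  unfold omega
  have h1 : funMap α ψ 1 = ψ 1 := by simp [funMap]
  rw [h1]
  congr 1
  symm
  refine finsum_mem_eq_of_bijOn (fun x => α x) ⟨?_, ?_, ?_⟩ ?_
  · intro x hx
    obtain ⟨c, hc⟩ := isConj_iff.1 (show IsConj g x from hx)
    exact show IsConj (α g) (α x) from isConj_iff.2 ⟨α c, by rw [← hc, map_mul, map_mul, map_inv]⟩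
  · exact α.injective.injOn
  · intro y hy
    obtain ⟨c, hc⟩ := isConj_iff.1 (show IsConj (α g) y from hy)
    refine ⟨α⁻¹ y, ?_, by simp⟩
    show IsConj g (α⁻¹ y)
    refine isConj_iff.2 ⟨α⁻¹ c, ?_⟩
    rw [← hc, map_mul, map_mul, map_inv]
    simp
  · intro x _
    simp [funMap]

end Pool.Agent.helper55.DC
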