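import Mathlib
import Pool.Agent.helper58.DC.Spec1

/-! # dq: RB, radical chains when `O_p(G) = 1` -/

set_option autoImplicit false

namespace Pool.Agent.helper55.DC

open Pool.Agent.helper58.DC

open Classical in
theorem RB_nrm_bot {G : Type} [Group G] (C : Finset (Subgroup G)) :
    nrm (C.filter (· ≤ ⊥)) = ⊤ := by
  unfold nrm
  rw [eq_top_iff]
  refine le_iInf fun P => le_iInf fun hP => ?_
  rw [Finset.mem_filter] at hP
  have h : P = ⊥ := le_bot_iff.1 hP.2
  subst h
  intro g _
  rw [Subgroup.mem_normalizer_iff]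
  intro h
  simp only [SetLike.mem_coe, Subgroup.mem_bot]
  constructor
  · rintro rfl; simp
  · intro h1
    have := congrArg (fun x => g⁻¹ * x * g) h1
    simpa [mul_assoc] using this

theorem RB : RB_stmt := by
  intro G _ _ p hop C
  constructor
  · rintro ⟨h1, h2, P₀, h3, h4, h5, h6⟩
    have h0 : P₀ = ⊥ := IsGreatest.unique h5 hop
    subst h0
    refine ⟨h1, h3, fun P hP => ⟨h2 P hP, ?_⟩⟩
    by_cases hb : P = ⊥
    · subst hb
      rw [RB_nrm_bot]
      exact hop
    · exact h6 P hP hb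
  · rintro ⟨h1, h2, h3⟩
    exact ⟨h1, fun P hP => (h3 P hP).1, ⊥, h2, fun P _ => bot_le, hop, fun P hP _ => (h3 P hP).2⟩

end Pool.Agent.helper55.DC
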