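import Mathlib
import Pool.Agent.helper58.DC.Spec1

/-! # dq: SK, stability and finiteness for the extension `kext X c` -/

set_option autoImplicit false

namespace Pool.Agent.helper55.DC

open Pool.Agent.helper58.DC

theorem SK_funMap (G E A L T : Type) [Group G] [Group E] [Group A] [Group L] [MulAction L T]
    [Fintype T] (X : Extension G E A) (c : Cocycle L T A) (e : KE X c) (ψ : T → G → ℂ) :
    funMap ((kext X c).act e) (tens ψ) =
      tens fun s => funMap (X.act (e.f (e.l⁻¹ • s))) (ψ (e.l⁻¹ • s)) := by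
  funext x
  simp only [funMap, tens]
  simp only [kext_act_symm]
  refine Fintype.prod_equiv (MulAction.toPerm (e.l : L)) _ _ fun t => ?_
  simp

theorem SK (hIP : IP_stmt) (hIF : IF_stmt) (hTI : TI_stmt) : SK_stmt := by
  intro G E A L T _ _ _ _ _ _ _ X c M
  refine ⟨SK_funMap G E A L T X c, ?_, ?_, ?_⟩
  · intro χ hχ hst e
    rw [SK_funMap]
    rw [hIP G T M (fun _ => ⊤) _ (fun _ => χ) ?_ (fun _ => hχ)]
    · intro t
      exact hst _
    · intro t
      have h := ((hIF G ⊤).2 χ ((hTI G χ).2 hχ)).2.2 (X.act (e.f (e.l⁻¹ • t)))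
      have h2 : (⊤ : Subgroup G).map (X.act (e.f (e.l⁻¹ • t))).toMonoidHom = ⊤ := by
        rw [← MonoidHom.range_eq_map, MonoidHom.range_eq_top]
        exact (X.act (e.f (e.l⁻¹ • t))).surjective
      rw [h2] at h
      exact h
  · intro hE hL
    refine Finite.of_injective (fun e : KE X c => (e.l, e.f)) ?_
    intro a b h
    exact KE.ext (congrArg Prod.fst h) (congrArg Prod.snd h)
  · intro hE
    exact Finite.of_surjective X.proj X.proj_surjective

end Pool.Agent.helper55.DC
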