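import Mathlib
import Pool.Agent.helper58.DC.Spec1

/-! # dq: ST, a nonzero alternating sum for `U = ⊤` makes the block stable -/

set_option autoImplicit false

namespace Pool.Agent.helper55.DC

open Pool.Agent.helper58.DC

theorem ST_act_inc {G E A : Type} [Group G] [Group E] [Group A] (X : Extension G E A) (g : G) :
    X.act (X.inc g) = MulAut.conj g := by
  refine MulEquiv.ext fun h => ?_
  apply X.inc_injective
  rw [X.act_spec, MulAut.conj_apply, map_mul, map_mul, map_inv]

theorem ST_funMap_mul {G : Type} [Group G] (α β : MulAut G) (ψ : G → ℂ) :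
    funMap (α * β) ψ = funMap α (funMap β ψ) := by
  funext g
  simp [funMap, mul_inv_rev]

theorem ST (hIM : IM_stmt) (hIF : IF_stmt) (hTI : TI_stmt) : ST_stmt := by
  intro G E A _ _ _ _ X p M χ hχ d h0 e
  have hex : ∃ c : Quot (chainRel (G := G) p),
      (-1 : ℤ) ^ (c.out.1.card - 1) * (kC X p M χ d ⊤ c.out.1 : ℤ) ≠ 0 := by
    by_contra hno
    push Not at hno
    apply h0
    unfold altSum
    simp only [hno]
    exact finsum_zero
  obtain ⟨c, hc⟩ := hex
  have hk : kC X p M χ d ⊤ c.out.1 ≠ 0 := by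
    intro h
    apply hc
    rw [h]
    simp
  unfold kC at hk
  have hne : Nonempty {ψ : G → ℂ // ψ ∈ IrrOn (nrm c.out.1) ∧ Defect p (nrm c.out.1) ψ d ∧
      Induces M ψ χ ∧ (X.stab c.out.1 ψ).map X.proj = ⊤} := by
    by_contra hno
    rw [not_nonempty_iff] at hno
    exact hk Nat.card_of_isEmpty
  obtain ⟨ψ, -, -, hind, htop⟩ := hne
  have he : X.proj e ∈ (X.stab c.out.1 ψ).map X.proj := by rw [htop]; trivial
  obtain ⟨n, hn, hne⟩ := Subgroup.mem_map.1 he
  have h1 : X.proj (n⁻¹ * e) = 1 := by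
    rw [map_mul, map_inv, hne, inv_mul_cancel]
  obtain ⟨g, hg⟩ := (X.exact _).1 h1
  have he2 : e = n * X.inc g := by rw [hg, mul_inv_cancel_left]
  have hcl : funMap (MulAut.conj g) χ = χ := by
    funext x
    have h2 := ((hIF G ⊤).2 χ ((hTI G χ).2 hχ)).2.1 g⁻¹ (Subgroup.mem_top _) x
    show χ ((MulAut.conj g)⁻¹ x) = χ x
    rw [← map_inv, MulAut.conj_apply]
    exact h2
  have h3 : funMap (X.act e) χ = funMap (X.act n) χ := by
    rw [he2, map_mul, ST_funMap_mul, ST_act_inc, hcl]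
  have hfix : funMap (X.act n) ψ = ψ := hn.2
  have h4 : Induces M ψ (funMap (X.act n) χ) := by
    have h5 := ((hIM G M ψ χ χ).2.2.2 (X.act n)).2 hind
    rwa [hfix] at h5
  rw [h3]
  have h6 : Induces M (funMap (X.act n) χ) ψ := (hIM G M ψ (funMap (X.act n) χ) χ).2.1 h4
  exact (hIM G M (funMap (X.act n) χ) ψ χ).2.2.1 h6 hind

end Pool.Agent.helper55.DC
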